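import Mathlib

set_option autoImplicit false

namespace Pool.Agent.Results.MP_10bb55_an.NoRepelling

open MvPolynomial Complex

/-- The map `[z] ↦ [F z]` of the projective plane read in the affine chart `z k = 1`
(source and target): `w ↦ (F_j (z) / F_k (z))_{j ≠ k}` where `z` is `w` with `1` inserted
in position `k`. -/
noncomputable def chartMap (F : Fin 3 → MvPolynomial (Fin 3) ℂ) (k : Fin 3) (w : Fin 2 → ℂ) :
    Fin 2 → ℂ :=
  fun j => eval (Fin.insertNth k (1 : ℂ) w : Fin 3 → ℂ) (F (k.succAbove j)) /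
    eval (Fin.insertNth k (1 : ℂ) w : Fin 3 → ℂ) (F k)

noncomputable def P : Fin 3 → MvPolynomial (Fin 3) ℂ :=
  ![C 4 * (X 0 * X 2) + C 2 * (X 1 * X 1) + C (-2) * (X 2 * X 2),
    C 4 * (X 1 * X 2) + C I * (X 0 * X 0) + C (-I) * (X 2 * X 2),
    C 4 * (X 2 * X 2)]

noncomputable def Q (z : Fin 3 → ℂ) : Fin 3 → ℂ :=
  ![4 * z 0 * z 2 + 2 * (z 1 ^ 2 - z 2 ^ 2), 4 * z 1 * z 2 + I * (z 0 ^ 2 - z 2 ^ 2), 4 * z 2 ^ 2]

noncomputable def B (z u : Fin 3 → ℂ) : Fin 3 → ℂ :=
  ![4 * (z 0 * u 2 + u 0 * z 2) + 4 * (z 1 * u 1 - z 2 * u 2),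
    4 * (z 1 * u 2 + u 1 * z 2) + 2 * I * (z 0 * u 0 - z 2 * u 2), 8 * z 2 * u 2]

lemma eval_P (z : Fin 3 → ℂ) (i : Fin 3) : eval z (P i) = Q z i := by
  fin_cases i <;> simp [P, Q] <;> ring

lemma Q_line (z u : Fin 3 → ℂ) (t : ℂ) (i : Fin 3) :
    Q (z + t • u) i = Q z i + t * B z u i + t ^ 2 * Q u i := by
  fin_cases i <;> simp [Q, B] <;> ring

lemma B_lin (z u : Fin 3 → ℂ) (s : ℂ) (i : Fin 3) :
    B z (u - s • z) i = B z u i - 2 * s * Q z i := by
  fin_cases i <;> simp [Q, B] <;> ring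

lemma ins_line (k : Fin 3) (w v : Fin 2 → ℂ) (t : ℂ) :
    (Fin.insertNth k (1 : ℂ) (w + t • v) : Fin 3 → ℂ) =
      Fin.insertNth k (1 : ℂ) w + t • (Fin.insertNth k (0 : ℂ) v : Fin 3 → ℂ) := by
  funext i
  refine Fin.succAboveCases k ?_ (fun j => ?_) i <;> simp

lemma diff_Q (k i : Fin 3) :
    Differentiable ℂ (fun w : Fin 2 → ℂ => Q (Fin.insertNth k (1 : ℂ) w) i) := by
  have h : ∀ l : Fin 3, Differentiable ℂ
      (fun w : Fin 2 → ℂ => (Fin.insertNth k (1 : ℂ) w : Fin 3 → ℂ) l) := by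
    intro l
    refine Fin.succAboveCases k ?_ (fun j => ?_) l
    · simp
    · simp only [Fin.insertNth_apply_succAbove]; fun_prop
  have h0 := h 0
  have h1 := h 1
  have h2 := h 2
  fin_cases i <;> simp only [Q] <;> simp <;> fun_prop

lemma chart_P (k : Fin 3) (w : Fin 2 → ℂ) (j : Fin 2) :
    chartMap P k w j = Q (Fin.insertNth k (1 : ℂ) w) (k.succAbove j) /
      Q (Fin.insertNth k (1 : ℂ) w) k :=
  congrArg₂ (· / ·) (eval_P _ _) (eval_P _ _)

lemma fderiv_chart (k : Fin 3) (w v : Fin 2 → ℂ) (z : Fin 3 → ℂ)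
    (hz : z = Fin.insertNth k (1 : ℂ) w) (h : Q z k ≠ 0) (j : Fin 2) :
    fderiv ℂ (chartMap P k) w v j =
      (B z (Fin.insertNth k (0 : ℂ) v) (k.succAbove j) * Q z k -
        Q z (k.succAbove j) * B z (Fin.insertNth k (0 : ℂ) v) k) / Q z k ^ 2 := by
  have hc : chartMap P k = fun w j => Q (Fin.insertNth k (1 : ℂ) w) (k.succAbove j) /
      Q (Fin.insertNth k (1 : ℂ) w) k := by
    funext w j; exact chart_P k w j
  have hd : DifferentiableAt ℂ (chartMap P k) w := by
    rw [hc, differentiableAt_pi]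
    intro j
    have := ((diff_Q k (k.succAbove j)) w).mul (((diff_Q k k) w).inv (hz ▸ h))
    simp only [div_eq_mul_inv]
    exact this
  have hl : HasDerivAt (fun t : ℂ => w + t • v) v 0 := by
    simpa using ((hasDerivAt_id (0 : ℂ)).smul_const v).const_add w
  have h1 : HasDerivAt (fun t : ℂ => chartMap P k (w + t • v)) (fderiv ℂ (chartMap P k) w v) 0 := by
    have : HasFDerivAt (chartMap P k) (fderiv ℂ (chartMap P k) w) (w + (0 : ℂ) • v) := by
      simpa using hd.hasFDerivAt
    exact this.comp_hasDerivAt (0 : ℂ) hl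
  have h2 := (hasDerivAt_pi.1 h1) j
  have hq : ∀ i, HasDerivAt (fun t : ℂ => Q z i + t * B z (Fin.insertNth k (0 : ℂ) v) i +
      t ^ 2 * Q (Fin.insertNth k (0 : ℂ) v) i) (B z (Fin.insertNth k (0 : ℂ) v) i) 0 := by
    intro i
    have := (((hasDerivAt_id (0 : ℂ)).mul_const (B z (Fin.insertNth k (0 : ℂ) v) i)).const_add
      (Q z i)).add (((hasDerivAt_id (0 : ℂ)).pow 2).mul_const (Q (Fin.insertNth k (0 : ℂ) v) i))
    exact this.congr_deriv (by simp)
  have h3 := (hq (k.succAbove j)).div (hq k) (by simpa using h)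
  have h4 : (fun t : ℂ => chartMap P k (w + t • v) j) = (fun t : ℂ => Q z (k.succAbove j) +
      t * B z (Fin.insertNth k (0 : ℂ) v) (k.succAbove j) +
      t ^ 2 * Q (Fin.insertNth k (0 : ℂ) v) (k.succAbove j)) / (fun t : ℂ => Q z k +
      t * B z (Fin.insertNth k (0 : ℂ) v) k + t ^ 2 * Q (Fin.insertNth k (0 : ℂ) v) k) := by
    funext t
    rw [chart_P, ins_line, ← hz]
    exact congrArg₂ (· / ·) (Q_line _ _ _ _) (Q_line _ _ _ _)
  rw [h4] at h2
  rw [h2.unique h3]
  simp

lemma E1 (z : Fin 3 → ℂ) (c : ℂ) (hc : c ≠ 0) (hz : z ≠ 0) (h : ∀ i, Q z i = c * z i) :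
    ∃ (u : Fin 3 → ℂ) (μ : ℂ), ‖μ‖ < 1 ∧ (∀ i, B z u i = c * μ * u i) ∧ ∀ s : ℂ, u ≠ s • z := by
  have h0 := h 0
  have h1 := h 1
  have h2 := h 2
  simp [Q] at h0 h1 h2
  have hI := Complex.I_mul_I
  by_cases hz2 : z 2 = 0
  · rw [hz2] at h0 h1
    have hz0 : z 0 ≠ 0 := by
      intro hz0
      rw [hz0] at h0
      have : z 1 = 0 := by simpa using h0
      apply hz; funext i; fin_cases i <;> simp [*]
    have hz1 : z 1 ≠ 0 := by
      intro hz1
      rw [hz1] at h1
      apply hz0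
      simpa using h1
    refine ⟨![2 * I * z 1 / z 0, - z 0 / z 1, 1], 0, by simp, ?_, ?_⟩
    · intro i
      fin_cases i <;> simp [B, hz2]
      · field_simp; ring
      · field_simp; linear_combination (4 * z 1) * hI
    · intro s hs
      have := congrFun hs 2
      simp [hz2] at this
  · have hc2 : c = 4 * z 2 := by
      apply mul_right_cancel₀ hz2; linear_combination -h2
    subst hc2
    have e1 : z 1 ^ 2 = z 2 ^ 2 := by linear_combination h0 / 2
    have e0 : z 0 ^ 2 = z 2 ^ 2 := by linear_combination (-I) * h1 + (z 0 ^ 2 - z 2 ^ 2) * hI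
    have hz1 : z 1 ≠ 0 := by
      intro h; rw [h] at e1; apply hz2; simpa using e1.symm
    have hcase : z 0 * z 1 = z 2 ^ 2 ∨ z 0 * z 1 = - z 2 ^ 2 := by
      apply sq_eq_sq_iff_eq_or_eq_neg.1
      rw [mul_pow, e0, e1]; ring
    have hne : ∀ μ s : ℂ, ![z 1, (μ - 1) * z 2, 0] ≠ s • z := by
      intro μ s hs
      have a2 := congrFun hs 2
      have a0 := congrFun hs 0
      simp [hz2] at a2 a0
      rw [a2] at a0
      exact hz1 (by simpa using a0)
    rcases hcase with e | e
    · refine ⟨![z 1, ((1 - I) / 2 - 1) * z 2, 0], (1 - I) / 2, ?_, ?_, hne _⟩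
      · rw [← sq_lt_one_iff₀ (norm_nonneg _), Complex.sq_norm, Complex.normSq_apply]
        simp; norm_num
      · intro i
        fin_cases i <;> simp [B]
        · ring
        · linear_combination (2 * I) * e - (z 2 ^ 2) * hI
    · refine ⟨![z 1, ((1 + I) / 2 - 1) * z 2, 0], (1 + I) / 2, ?_, ?_, hne _⟩
      · rw [← sq_lt_one_iff₀ (norm_nonneg _), Complex.sq_norm, Complex.normSq_apply]
        simp; norm_num
      · intro i
        fin_cases i <;> simp [B]
        · ring
        · linear_combination (2 * I) * e - (z 2 ^ 2) * hI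

lemma E2 (z : Fin 3 → ℂ) (c : ℂ) (hc : c ≠ 0) (hz : z ≠ 0) (h : ∀ i, Q z i = c * z i)
    (u : Fin 3 → ℂ) (a : ℂ) (hu : ∀ i, B z u i = c * u i + a * z i) : ∃ s : ℂ, u = s • z := by
  have h0 := h 0
  have h1 := h 1
  have h2 := h 2
  have u0 := hu 0
  have u1 := hu 1
  have u2 := hu 2
  simp [Q] at h0 h1 h2
  simp [B] at u0 u1 u2
  have hI := Complex.I_mul_I
  by_cases hz2 : z 2 = 0
  · rw [hz2] at h0 h1 u0 u1 u2
    have hz0 : z 0 ≠ 0 := by
      intro hz0
      rw [hz0] at h0
      have : z 1 = 0 := by simpa using h0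
      apply hz; funext i; fin_cases i <;> simp [*]
    have hu2 : u 2 = 0 := by
      apply mul_left_cancel₀ hc; linear_combination -u2
    rw [hu2] at u0 u1
    have key : z 0 * u 1 = z 1 * u 0 := by
      apply mul_left_cancel₀ (mul_ne_zero (three_ne_zero) hc)
      linear_combination (z 1) * u0 - (z 0) * u1 - (2 * u 1) * h0 + (2 * u 0) * h1
    refine ⟨u 0 / z 0, ?_⟩
    funext i
    fin_cases i <;> simp [hz2, hu2]
    · field_simp
    · field_simp; linear_combination key
  · have hc2 : c = 4 * z 2 := by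
      apply mul_right_cancel₀ hz2; linear_combination -h2
    subst hc2
    have e1 : z 1 ^ 2 = z 2 ^ 2 := by linear_combination h0 / 2
    have e0 : z 0 ^ 2 = z 2 ^ 2 := by linear_combination (-I) * h1 + (z 0 ^ 2 - z 2 ^ 2) * hI
    have ha : a = 4 * u 2 := by
      apply mul_right_cancel₀ hz2; linear_combination -u2
    subst ha
    have k1 : z 1 * u 1 = z 2 * u 2 := by linear_combination u0 / 4
    have k0 : z 0 * u 0 = z 2 * u 2 := by
      linear_combination (-I / 2) * u1 + (z 0 * u 0 - z 2 * u 2) * hI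
    refine ⟨u 2 / z 2, ?_⟩
    funext i
    fin_cases i <;> simp <;> field_simp
    · apply mul_left_cancel₀ hz2
      linear_combination (z 0) * k0 - (u 0) * e0
    · apply mul_left_cancel₀ hz2
      linear_combination (z 1) * k1 - (u 1) * e1

theorem result :
    ∃ F : Fin 3 → MvPolynomial (Fin 3) ℂ,
      (∀ i, (F i).IsHomogeneous 2) ∧
      (∀ z : Fin 3 → ℂ, (∀ i, eval z (F i) = 0) → z = 0) ∧
      ∀ (k : Fin 3) (w : Fin 2 → ℂ),
        eval (Fin.insertNth k (1 : ℂ) w : Fin 3 → ℂ) (F k) ≠ 0 → chartMap F k w = w →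
          (∃ μ : ℂ, ‖μ‖ < 1 ∧
            Module.End.HasEigenvalue (fderiv ℂ (chartMap F k) w : (Fin 2 → ℂ) →ₗ[ℂ] (Fin 2 → ℂ)) μ) ∧
          ¬ Module.End.HasEigenvalue
            (fderiv ℂ (chartMap F k) w : (Fin 2 → ℂ) →ₗ[ℂ] (Fin 2 → ℂ)) 1 := by
  refine ⟨P, ?_, ?_, ?_⟩
  · have hX : ∀ (c : ℂ) (i j : Fin 3),
        (C c * (X i * X j) : MvPolynomial (Fin 3) ℂ).IsHomogeneous 2 := by
      intro c i j
      exact ((isHomogeneous_X ℂ i).mul (isHomogeneous_X ℂ j)).C_mul c
    intro i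
    fin_cases i
    · exact ((hX _ _ _).add (hX _ _ _)).add (hX _ _ _)
    · exact ((hX _ _ _).add (hX _ _ _)).add (hX _ _ _)
    · exact hX _ _ _
  · intro z h
    have h0 := h 0
    have h1 := h 1
    have h2 := h 2
    rw [eval_P] at h0 h1 h2
    simp [Q] at h0 h1 h2
    rw [h2] at h0 h1
    simp at h0 h1
    funext i; fin_cases i <;> simp [*]
  · intro k w hk hfix
    rw [eval_P] at hk
    set z : Fin 3 → ℂ := Fin.insertNth k (1 : ℂ) w with hz
    have hzk : z k = 1 := by simp [hz]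
    have hzj : ∀ j, z (k.succAbove j) = w j := by intro j; simp [hz]
    have hz0 : z ≠ 0 := by intro h; rw [h] at hzk; simp at hzk
    have hQ : ∀ i, Q z i = Q z k * z i := by
      intro i
      refine Fin.succAboveCases k ?_ (fun j => ?_) i
      · rw [hzk, mul_one]
      · have := congrFun hfix j
        rw [chart_P, ← hz] at this
        rw [hzj, ← this]; field_simp
    constructor
    · obtain ⟨u, μ, hμ, hu, hne⟩ := E1 z _ hk hz0 hQ
      refine ⟨μ, hμ, ?_⟩
      have hins : (Fin.insertNth k (0 : ℂ) (fun j => (u - u k • z) (k.succAbove j)) : Fin 3 → ℂ) =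
          u - u k • z := by
        funext i
        refine Fin.succAboveCases k ?_ (fun j => ?_) i
        · simp [hzk]
        · simp
      apply Module.End.hasEigenvalue_of_hasEigenvector (x := fun j => (u - u k • z) (k.succAbove j))
      refine ⟨?_, ?_⟩
      · rw [Module.End.mem_eigenspace_iff]
        funext j
        show fderiv ℂ (chartMap P k) w _ j = _
        rw [fderiv_chart k w _ z hz hk, hins, B_lin, B_lin, hu, hu, hQ (k.succAbove j)]
        simp only [Pi.smul_apply, Pi.sub_apply, smul_eq_mul]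
        field_simp
        ring
      · intro h0
        rw [h0] at hins
        apply hne (u k)
        rw [← sub_eq_zero, ← hins]
        funext i
        refine Fin.succAboveCases k ?_ (fun j => ?_) i <;> simp
    · intro h1
      obtain ⟨v, hv⟩ := h1.exists_hasEigenvector
      have hv1 := Module.End.mem_eigenspace_iff.1 hv.1
      obtain ⟨s, hs⟩ := E2 z _ hk hz0 hQ (Fin.insertNth k (0 : ℂ) v)
        (B z (Fin.insertNth k (0 : ℂ) v) k) (by
          intro i
          refine Fin.succAboveCases k ?_ (fun j => ?_) i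
          · simp [hzk]
          · have := congrFun hv1 j
            change fderiv ℂ (chartMap P k) w v j = _ at this
            rw [fderiv_chart k w _ z hz hk, hQ (k.succAbove j)] at this
            simp only [one_smul] at this
            rw [Fin.insertNth_apply_succAbove, ← this]
            field_simp
            ring)
      have hs0 : s = 0 := by simpa [hzk] using (congrFun hs k).symm
      apply hv.2
      funext j
      simpa [hs0] using congrFun hs (k.succAbove j)

end Pool.Agent.Results.MP_10bb55_an.NoRepelling
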